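import Mathlib
import Pool.Agent.J4.H38.GD.SDefs
import Pool.Agent.Helper602.MK.J3

/-! Project SD, piece P3 (helper56): moments of the large common prime factors over the primes. -/

set_option autoImplicit false

namespace Pool.Agent.J4.H56.GD3

open Finset Filter
open Pool.Agent.J4.H38.GD
open Pool.Agent.H373R2.T7 (pz mem_pz)

/-- Brun-Titchmarsh for the classes modulo `Q`, `Q ^ 2 ≤ N` -/
lemma bt {C : ℝ} (hC : 1 ≤ C) (h : ∀ (a q N : ℕ), 1 ≤ q → 2 ≤ N →
    (((Finset.range N).filter (fun k => (a + k * q).Prime)).card : ℝ) ≤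
      C * ((q : ℝ) / (Nat.totient q : ℝ)) * N / Real.log N) {N Q : ℕ} (hQ : 1 ≤ Q)
    (hN : Q ^ 2 ≤ N) (hN2 : 2 ≤ N) (r : ℕ) :
    ((((Icc 1 N).filter Nat.Prime).filter (fun q : ℕ => (Q : ℤ) ∣ (q : ℤ) - r)).card : ℝ) ≤
      4 * C / (Nat.totient Q : ℝ) * (N / Real.log N) := by
  have hQR : (1 : ℝ) ≤ Q := by exact_mod_cast hQ
  have hphi : (0 : ℝ) < Nat.totient Q := by exact_mod_cast Nat.totient_pos.2 hQ
  have hQN : Q ≤ N := le_trans (by nlinarith) hN
  have hM2 : 2 ≤ N / Q + 1 := by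
    have : 1 ≤ N / Q := Nat.div_pos hQN hQ
    omega
  have h1 := h (r % Q) Q (N / Q + 1) hQ hM2
  have h2 : (((Icc 1 N).filter Nat.Prime).filter (fun q : ℕ => (Q : ℤ) ∣ (q : ℤ) - r)).card ≤
      ((Finset.range (N / Q + 1)).filter (fun k => (r % Q + k * Q).Prime)).card := by
    apply card_le_card_of_injOn (fun q => q / Q)
    · intro q hq
      rw [mem_coe, mem_filter, mem_filter, mem_Icc] at hq
      obtain ⟨⟨⟨h3, h4⟩, h5⟩, h6⟩ := hq
      have h7 : q % Q = r % Q := by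
        have : (r : ℤ) ≡ q [ZMOD Q] := (Int.modEq_iff_dvd).2 h6
        exact (Int.natCast_modEq_iff.1 this).symm
      rw [mem_coe, mem_filter, mem_range]
      refine ⟨Nat.lt_succ_of_le (Nat.div_le_div_right h4), ?_⟩
      have h8 : r % Q + q / Q * Q = q := by
        rw [← h7, mul_comm]
        exact Nat.mod_add_div q Q
      rw [h8]
      exact h5
    · intro q hq q' hq' heq
      rw [mem_coe, mem_filter, mem_filter, mem_Icc] at hq hq'
      have h7 : q % Q = r % Q := by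
        have : (r : ℤ) ≡ q [ZMOD Q] := (Int.modEq_iff_dvd).2 hq.2
        exact (Int.natCast_modEq_iff.1 this).symm
      have h7' : q' % Q = r % Q := by
        have : (r : ℤ) ≡ q' [ZMOD Q] := (Int.modEq_iff_dvd).2 hq'.2
        exact (Int.natCast_modEq_iff.1 this).symm
      have heq' : q / Q = q' / Q := heq
      rw [← Nat.mod_add_div q Q, ← Nat.mod_add_div q' Q, h7, h7', heq']
  have h3 : ((((Icc 1 N).filter Nat.Prime).filter (fun q : ℕ => (Q : ℤ) ∣ (q : ℤ) - r)).card : ℝ) ≤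
      C * ((Q : ℝ) / (Nat.totient Q : ℝ)) * ((N / Q + 1 : ℕ) : ℝ) / Real.log ((N / Q + 1 : ℕ) : ℝ) :=
    le_trans (by exact_mod_cast h2) h1
  refine h3.trans ?_
  have hNR : (2 : ℝ) ≤ N := by exact_mod_cast hN2
  have hlogN : 0 < Real.log N := Real.log_pos (by linarith)
  have hM : (((N / Q + 1 : ℕ)) : ℝ) ≤ 2 * (N / Q) := by
    push_cast
    have h4 : ((N / Q : ℕ) : ℝ) ≤ N / Q := Nat.cast_div_le
    have h5 : (1 : ℝ) ≤ N / Q := by
      rw [le_div_iff₀ (by linarith), one_mul]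
      exact_mod_cast hQN
    linarith
  have hlogM : Real.log N / 2 ≤ Real.log ((N / Q + 1 : ℕ) : ℝ) := by
    have h4 : (N : ℝ) / Q ≤ ((N / Q + 1 : ℕ) : ℝ) := by
      push_cast
      have := Nat.lt_floor_add_one ((N : ℝ) / Q)
      rw [Nat.floor_div_eq_div] at this
      linarith
    have h5 : √(N : ℝ) ≤ (N : ℝ) / Q := by
      rw [le_div_iff₀ (by linarith)]
      have h6 : (Q : ℝ) ≤ √(N : ℝ) := by
        apply Real.le_sqrt_of_sq_le
        exact_mod_cast hN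
      calc √(N : ℝ) * Q ≤ √(N : ℝ) * √(N : ℝ) := mul_le_mul_of_nonneg_left h6 (Real.sqrt_nonneg _)
        _ = N := Real.mul_self_sqrt (by linarith)
    have h6 : Real.log (√(N : ℝ)) = Real.log N / 2 := Real.log_sqrt (by linarith)
    rw [← h6]
    exact Real.log_le_log (Real.sqrt_pos.2 (by linarith)) (h5.trans h4)
  have hC0 : 0 < C := by linarith
  calc C * ((Q : ℝ) / (Nat.totient Q : ℝ)) * ((N / Q + 1 : ℕ) : ℝ) / Real.log ((N / Q + 1 : ℕ) : ℝ) ≤
        C * ((Q : ℝ) / (Nat.totient Q : ℝ)) * (2 * (N / Q)) / (Real.log N / 2) := by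
        apply div_le_div₀ (by positivity) _ (by positivity) hlogM
        exact mul_le_mul_of_nonneg_left hM (by positivity)
    _ = 4 * C / (Nat.totient Q : ℝ) * (N / Real.log N) := by
        field_simp
        ring

/-- `(1 + 2 / p) ^ j - 1` -/
noncomputable def ee (j p : ℕ) : ℝ := (1 + 2 / (p : ℝ)) ^ j - 1

lemma ee_nonneg (j p : ℕ) : 0 ≤ ee j p := by
  unfold ee
  have : (1 : ℝ) ≤ (1 + 2 / (p : ℝ)) ^ j := one_le_pow₀ (by
    have : (0 : ℝ) ≤ 2 / (p : ℝ) := by positivity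
    linarith)
  linarith

lemma ee_le {j p : ℕ} (hp : 1 ≤ p) (hjp : j ≤ p) : ee j p ≤ 16 * j / p := by
  have hpR : (1 : ℝ) ≤ p := by exact_mod_cast hp
  have hjR : (j : ℝ) ≤ p := by exact_mod_cast hjp
  set x : ℝ := 2 * j / p with hx
  have hx0 : 0 ≤ x := by positivity
  have hx2 : x ≤ 2 := by
    rw [hx, div_le_iff₀ (by linarith)]
    linarith
  have h1 : (1 + 2 / (p : ℝ)) ^ j ≤ Real.exp x := by
    calc (1 + 2 / (p : ℝ)) ^ j ≤ (Real.exp (2 / p)) ^ j := by
          apply pow_le_pow_left₀ (by positivity)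
          linarith [Real.add_one_le_exp (2 / (p : ℝ))]
      _ = Real.exp x := by
          rw [← Real.exp_nat_mul, hx]
          congr 1
          ring
  have h2 : Real.exp x - 1 ≤ x * Real.exp x := by
    have h3 := Real.add_one_le_exp (-x)
    have h4 : (1 - x) * Real.exp x ≤ 1 := by
      calc (1 - x) * Real.exp x ≤ Real.exp (-x) * Real.exp x :=
            mul_le_mul_of_nonneg_right (by linarith) (Real.exp_pos _).le
        _ = 1 := by rw [← Real.exp_add]; simp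
    nlinarith
  have h3 : Real.exp x ≤ 8 := by
    calc Real.exp x ≤ Real.exp 2 := Real.exp_le_exp.2 hx2
      _ = Real.exp 1 * Real.exp 1 := by rw [← Real.exp_add]; norm_num
      _ ≤ 8 := by nlinarith [Real.exp_one_lt_d9, Real.exp_pos 1]
  have h4 : x * Real.exp x ≤ x * 8 := mul_le_mul_of_nonneg_left h3 hx0
  unfold ee
  calc (1 + 2 / (p : ℝ)) ^ j - 1 ≤ x * 8 := by linarith
    _ = 16 * j / p := by rw [hx]; ring

/-- the primes in `(z, w]` -/
def DD (z w : ℕ) : Finset ℕ := (pz w).filter (fun p => z < p)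

lemma tau_pow (z w j : ℕ) (h : ℤ) : tau z w h ^ j =
    ∑ S ∈ (DD z w).powerset, if ∀ p ∈ S, (p : ℤ) ∣ h then ∏ p ∈ S, ee j p else 0 := by
  have h1 : tau z w h ^ j = ∏ p ∈ DD z w, (1 + if (p : ℤ) ∣ h then ee j p else 0) := by
    unfold tau DD
    rw [← prod_pow, ← filter_filter, prod_filter]
    refine prod_congr rfl fun p _ => ?_
    split_ifs
    · unfold ee
      ring
    · ring
  rw [h1, prod_one_add]
  refine sum_congr rfl fun S _ => ?_
  rw [prod_ite_zero]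

lemma phi_prod {z w : ℕ} {S : Finset ℕ} (hS : S ⊆ DD z w) :
    ((Nat.totient (∏ p ∈ S, p) : ℕ) : ℝ) = ∏ p ∈ S, ((p : ℝ) - 1) := by
  classical
  induction S using Finset.induction_on with
  | empty => simp
  | insert a S ha ih =>
    have hS' : S ⊆ DD z w := fun x hx => hS (mem_insert_of_mem hx)
    have haD := hS (mem_insert_self a S)
    unfold DD at haD
    rw [mem_filter, mem_pz] at haD
    rw [prod_insert ha, prod_insert ha, Nat.totient_mul, Nat.totient_prime haD.1.2]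
    · push_cast
      rw [ih hS', Nat.cast_sub haD.1.2.one_le]
      push_cast
      rfl
    · rw [Nat.coprime_prod_right_iff]
      intro p hp
      have hpD := hS' hp
      unfold DD at hpD
      rw [mem_filter, mem_pz] at hpD
      rw [Nat.coprime_primes haD.1.2 hpD.1.2]
      rintro rfl
      exact ha hp

lemma dvd_prod {z w : ℕ} {S : Finset ℕ} (hS : S ⊆ DD z w) {h : ℤ} (hd : ∀ p ∈ S, (p : ℤ) ∣ h) :
    ((∏ p ∈ S, p : ℕ) : ℤ) ∣ h := by
  push_cast
  apply Finset.prod_dvd_of_coprime _ hd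
  intro p hp q hq hpq
  have hpD := hS hp
  have hqD := hS hq
  unfold DD at hpD hqD
  rw [mem_filter, mem_pz] at hpD hqD
  show IsCoprime (p : ℤ) (q : ℤ)
  rw [Nat.isCoprime_iff_coprime, Nat.coprime_primes hpD.1.2 hqD.1.2]
  exact hpq

/-- the product over the primes -/
lemma prod_bd {z w j : ℕ} (hj : 1 ≤ j) (hjz : j ≤ z) :
    ∏ p ∈ DD z w, (1 + ee j p / ((p : ℝ) - 1)) ≤ Real.exp 16 := by
  have hzR : (1 : ℝ) ≤ z := by exact_mod_cast hj.trans hjz
  have hjR : (j : ℝ) ≤ z := by exact_mod_cast hjz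
  have hmem : ∀ p ∈ DD z w, p.Prime ∧ z < p ∧ p ≤ w := by
    intro p hp
    unfold DD at hp
    rw [mem_filter, mem_pz] at hp
    exact ⟨hp.1.2, hp.2, hp.1.1⟩
  have h1 : ∏ p ∈ DD z w, (1 + ee j p / ((p : ℝ) - 1)) ≤
      Real.exp (∑ p ∈ DD z w, ee j p / ((p : ℝ) - 1)) := by
    rw [Real.exp_sum]
    apply Finset.prod_le_prod
    · intro p hp
      have h2 : (2 : ℝ) ≤ p := by exact_mod_cast (hmem p hp).1.two_le
      have h3 := ee_nonneg j p
      have : 0 ≤ ee j p / ((p : ℝ) - 1) := div_nonneg h3 (by linarith)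
      linarith
    · intro p _
      linarith [Real.add_one_le_exp (ee j p / ((p : ℝ) - 1))]
  refine h1.trans (Real.exp_le_exp.2 ?_)
  have h2 : ∀ p ∈ DD z w, ee j p / ((p : ℝ) - 1) ≤ 16 * j * (1 / ((p : ℝ) - 1) - 1 / p) := by
    intro p hp
    obtain ⟨h3, h4, h5⟩ := hmem p hp
    have h6 : (2 : ℝ) ≤ p := by exact_mod_cast h3.two_le
    have h7 := ee_le (j := j) h3.one_le (by omega)
    have h8 : (0 : ℝ) < (p : ℝ) - 1 := by linarith
    have h9 : 16 * (j : ℝ) * (1 / ((p : ℝ) - 1) - 1 / p) = (16 * j / p) / ((p : ℝ) - 1) := by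
      field_simp
      ring
    rw [h9]
    exact div_le_div_of_nonneg_right h7 h8.le
  refine (sum_le_sum h2).trans ?_
  rw [← mul_sum]
  have h3 : ∑ p ∈ DD z w, (1 / ((p : ℝ) - 1) - 1 / (p : ℝ)) ≤
      ∑ n ∈ Ioc z (max z w), (1 / ((n : ℝ) - 1) - 1 / (n : ℝ)) := by
    apply sum_le_sum_of_subset_of_nonneg
    · intro p hp
      obtain ⟨_, h4, h5⟩ := hmem p hp
      rw [mem_Ioc]
      exact ⟨h4, h5.trans (le_max_right _ _)⟩
    · intro n hn _
      rw [mem_Ioc] at hn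
      have h4 : (2 : ℝ) ≤ n := by
        have : 2 ≤ n := by omega
        exact_mod_cast this
      have : 1 / (n : ℝ) ≤ 1 / ((n : ℝ) - 1) :=
        one_div_le_one_div_of_le (by linarith) (by linarith)
      linarith
  have h4 : ∀ W : ℕ, z ≤ W → ∑ n ∈ Ioc z W, (1 / ((n : ℝ) - 1) - 1 / (n : ℝ)) = 1 / z - 1 / W := by
    intro W hW
    induction W, hW using Nat.le_induction with
    | base => simp
    | succ n hn ih =>
      rw [sum_Ioc_succ_top hn, ih]
      push_cast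
      ring
  rw [h4 _ (le_max_left _ _)] at h3
  have h5 : (0 : ℝ) ≤ 1 / (max z w : ℕ) := by positivity
  have h6 : ∑ p ∈ DD z w, (1 / ((p : ℝ) - 1) - 1 / (p : ℝ)) ≤ 1 / z := by linarith
  calc 16 * (j : ℝ) * ∑ p ∈ DD z w, (1 / ((p : ℝ) - 1) - 1 / (p : ℝ)) ≤ 16 * j * (1 / z) :=
        mul_le_mul_of_nonneg_left h6 (by positivity)
    _ ≤ 16 := by
        rw [mul_one_div, div_le_iff₀ (by linarith)]
        linarith

theorem tau_mom : ∃ C : ℝ, 1 ≤ C ∧ ∀ z w j : ℕ, 1 ≤ j → j ≤ z → ∃ N₀ : ℕ, ∀ N : ℕ, N₀ ≤ N → ∀ r : ℕ,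
    ∑ q ∈ (Icc 1 N).filter Nat.Prime, tau z w ((q : ℤ) - r) ^ j ≤ C * (N / Real.log N) := by
  obtain ⟨C, hC, hBT⟩ := Pool.Agent.Helper602.MK.N_J3.J3
  refine ⟨4 * C * Real.exp 16, ?_, fun z w j hj hjz => ?_⟩
  · have : 1 ≤ Real.exp 16 := Real.one_le_exp (by norm_num)
    nlinarith
  refine ⟨max 2 ((∏ p ∈ DD z w, p) ^ 2), fun N hN r => ?_⟩
  have hN2 : 2 ≤ N := (le_max_left _ _).trans hN
  have hNP : (∏ p ∈ DD z w, p) ^ 2 ≤ N := (le_max_right _ _).trans hN
  have hmem : ∀ p ∈ DD z w, p.Prime := by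
    intro p hp
    unfold DD at hp
    rw [mem_filter, mem_pz] at hp
    exact hp.1.2
  have hNR : (2 : ℝ) ≤ N := by exact_mod_cast hN2
  have hlogN : 0 < Real.log N := Real.log_pos (by linarith)
  have h1 : ∑ q ∈ (Icc 1 N).filter Nat.Prime, tau z w ((q : ℤ) - r) ^ j =
      ∑ S ∈ (DD z w).powerset, (∏ p ∈ S, ee j p) *
        ((((Icc 1 N).filter Nat.Prime).filter (fun q : ℕ => ∀ p ∈ S, (p : ℤ) ∣ (q : ℤ) - r)).card : ℝ) := by
    simp_rw [tau_pow]
    rw [sum_comm]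
    refine sum_congr rfl fun S _ => ?_
    rw [← sum_filter, sum_const, nsmul_eq_mul, mul_comm]
  rw [h1]
  have h2 : ∀ S ∈ (DD z w).powerset, (∏ p ∈ S, ee j p) *
      ((((Icc 1 N).filter Nat.Prime).filter (fun q : ℕ => ∀ p ∈ S, (p : ℤ) ∣ (q : ℤ) - r)).card : ℝ) ≤
      (4 * C * (N / Real.log N)) * ∏ p ∈ S, (ee j p / ((p : ℝ) - 1)) := by
    intro S hS
    rw [mem_powerset] at hS
    set Q := ∏ p ∈ S, p with hQ
    have hQ1 : 1 ≤ Q := by
      rw [hQ]
      exact Nat.one_le_iff_ne_zero.2 (prod_ne_zero_iff.2 fun p hp => (hmem p (hS hp)).ne_zero)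
    have hQ2 : Q ^ 2 ≤ N := by
      refine le_trans (Nat.pow_le_pow_left ?_ 2) hNP
      apply Nat.le_of_dvd (Nat.pos_of_ne_zero (prod_ne_zero_iff.2 fun p hp => (hmem p hp).ne_zero))
      exact prod_dvd_prod_of_subset _ _ _ hS
    have h3 := bt hC hBT hQ1 hQ2 hN2 r
    have h4 : ((((Icc 1 N).filter Nat.Prime).filter
        (fun q : ℕ => ∀ p ∈ S, (p : ℤ) ∣ (q : ℤ) - r)).card : ℝ) ≤
        ((((Icc 1 N).filter Nat.Prime).filter (fun q : ℕ => (Q : ℤ) ∣ (q : ℤ) - r)).card : ℝ) := by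
      have : (((Icc 1 N).filter Nat.Prime).filter (fun q : ℕ => ∀ p ∈ S, (p : ℤ) ∣ (q : ℤ) - r)) ⊆
          (((Icc 1 N).filter Nat.Prime).filter (fun q : ℕ => (Q : ℤ) ∣ (q : ℤ) - r)) := by
        intro q hq
        rw [mem_filter] at hq ⊢
        exact ⟨hq.1, dvd_prod hS hq.2⟩
      exact_mod_cast card_le_card this
    have h5 : 0 ≤ ∏ p ∈ S, ee j p := prod_nonneg fun p _ => ee_nonneg j p
    refine (mul_le_mul_of_nonneg_left (h4.trans h3) h5).trans (le_of_eq ?_)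
    rw [prod_div_distrib, ← phi_prod hS]
    ring
  refine (sum_le_sum h2).trans ?_
  rw [← mul_sum, ← prod_one_add]
  have h3 := prod_bd (w := w) hj hjz
  have hC0 : 0 < C := by linarith
  calc (4 * C * (N / Real.log N)) * ∏ p ∈ DD z w, (1 + ee j p / ((p : ℝ) - 1)) ≤
        (4 * C * (N / Real.log N)) * Real.exp 16 :=
        mul_le_mul_of_nonneg_left h3 (by positivity)
    _ = 4 * C * Real.exp 16 * (N / Real.log N) := by ring

end Pool.Agent.J4.H56.GD3
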